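import Mathlib

/-!
The universal enveloping algebra of a Lie algebra as a Hopf algebra.
-/

open TensorProduct MulOpposite

namespace X190.UH

universe u v w

attribute [local instance 100] LieRing.ofAssociativeRing

section

variable (R : Type u) (L : Type v) [CommRing R] [LieRing L] [LieAlgebra R L]

/-- The universal enveloping algebra. -/
abbrev U := UniversalEnvelopingAlgebra R L

variable {R L}

/-- The generators. -/
noncomputable def io (x : L) : U R L := UniversalEnvelopingAlgebra.ι R x

theorem io_add (x y : L) : (io (x + y) : U R L) = io x + io y :=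
  map_add (UniversalEnvelopingAlgebra.ι R) x y

theorem io_smul (c : R) (x : L) : (io (c • x) : U R L) = c • io x :=
  map_smul (UniversalEnvelopingAlgebra.ι R) c x

theorem io_neg (x : L) : (io (-x) : U R L) = -io x :=
  map_neg (UniversalEnvelopingAlgebra.ι R) x

theorem io_zero : (io (0 : L) : U R L) = 0 :=
  map_zero (UniversalEnvelopingAlgebra.ι R)

theorem io_lie (x y : L) : (io ⁅x, y⁆ : U R L) = io x * io y - io y * io x := by
  have := LieHom.map_lie (UniversalEnvelopingAlgebra.ι R) x y
  rw [LieRing.of_associative_ring_bracket] at this
  exact this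

theorem U_ext {A : Type w} [Ring A] [Algebra R A] {f g : U R L →ₐ[R] A}
    (h : ∀ x, f (io x) = g (io x)) : f = g := by
  apply UniversalEnvelopingAlgebra.hom_ext
  ext x
  exact h x

/-- Algebra maps out of the enveloping algebra. -/
noncomputable def mkHom {A : Type w} [Ring A] [Algebra R A] (f : L →ₗ[R] A)
    (hf : ∀ x y, f ⁅x, y⁆ = f x * f y - f y * f x) : U R L →ₐ[R] A :=
  UniversalEnvelopingAlgebra.lift R
    { f with
      map_lie' := by
        intro x y
        rw [LieRing.of_associative_ring_bracket]
        exact hf x y }

@[simp] theorem mkHom_io {A : Type w} [Ring A] [Algebra R A] (f : L →ₗ[R] A)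
    (hf : ∀ x y, f ⁅x, y⁆ = f x * f y - f y * f x) (x : L) : mkHom f hf (io x) = f x :=
  UniversalEnvelopingAlgebra.lift_ι_apply R _ x

/-- Induction principle: a subalgebra containing the generators is everything. -/
theorem mem_of_io (S : Subalgebra R (U R L)) (h : ∀ x : L, io x ∈ S) (a : U R L) : a ∈ S := by
  let f : L →ₗ[R] S :=
    { toFun := fun x => ⟨io x, h x⟩
      map_add' := fun x y => Subtype.ext (io_add x y)
      map_smul' := fun c x => Subtype.ext (io_smul c x) }
  let φ : U R L →ₐ[R] S := mkHom f fun x y => Subtype.ext (io_lie x y)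
  have : S.val.comp φ = AlgHom.id R _ := by
    apply U_ext
    intro x
    change ((φ (io x) : S) : U R L) = io x
    rw [mkHom_io]
    rfl
  have h2 : ((φ a : S) : U R L) = a := AlgHom.congr_fun this a
  rw [← h2]
  exact (φ a).2

/-- The comultiplication. -/
noncomputable def comulHom : U R L →ₐ[R] U R L ⊗[R] U R L :=
  mkHom
    { toFun := fun x => io x ⊗ₜ[R] 1 + 1 ⊗ₜ[R] io x
      map_add' := by
        intro x y
        rw [io_add, TensorProduct.add_tmul, TensorProduct.tmul_add]
        abel
      map_smul' := by
        intro c x
        rw [io_smul, ← TensorProduct.smul_tmul', TensorProduct.tmul_smul, RingHom.id_apply,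
          smul_add] } (by
    intro x y
    simp only [LinearMap.coe_mk, AddHom.coe_mk, io_lie, add_mul, mul_add,
      Algebra.TensorProduct.tmul_mul_tmul, one_mul, mul_one, TensorProduct.sub_tmul,
      TensorProduct.tmul_sub]
    abel)

@[simp] theorem comulHom_io (x : L) :
    comulHom (io x : U R L) = io x ⊗ₜ[R] 1 + 1 ⊗ₜ[R] io x := mkHom_io _ _ x

/-- The counit. -/
noncomputable def counitHom : U R L →ₐ[R] R := mkHom 0 (by simp)

@[simp] theorem counitHom_io (x : L) : counitHom (io x : U R L) = 0 := mkHom_io _ _ x

/-- The antipode as an algebra map to the opposite algebra. -/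
noncomputable def antiHom : U R L →ₐ[R] (U R L)ᵐᵒᵖ :=
  mkHom
    { toFun := fun x => op (-io x)
      map_add' := by
        intro x y
        rw [io_add, neg_add, op_add]
      map_smul' := by
        intro c x
        rw [io_smul, ← smul_neg, op_smul, RingHom.id_apply] } (by
    intro x y
    simp only [LinearMap.coe_mk, AddHom.coe_mk, io_lie, ← op_mul, ← op_sub]
    congr 1
    noncomm_ring)

@[simp] theorem antiHom_io (x : L) : antiHom (io x : U R L) = op (-io x) := mkHom_io _ _ x

noncomputable instance instBialgebra : Bialgebra R (U R L) :=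
  Bialgebra.ofAlgHom comulHom counitHom
    (by
      apply U_ext
      intro x
      simp only [AlgHom.comp_apply, comulHom_io, map_add, Algebra.TensorProduct.map_tmul,
        AlgHom.id_apply, map_one, Algebra.TensorProduct.one_def, TensorProduct.add_tmul,
        TensorProduct.tmul_add]
      simp [Algebra.TensorProduct.one_def, TensorProduct.add_tmul, TensorProduct.tmul_add,
        add_assoc])
    (by
      apply U_ext
      intro x
      simp)
    (by
      apply U_ext
      intro x
      simp)

theorem comul_def (a : U R L) : Coalgebra.comul (R := R) a = comulHom a := rfl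

theorem counit_def (a : U R L) : Coalgebra.counit (R := R) a = counitHom a := rfl

/-- The antipode as a linear map. -/
noncomputable def antiLin : U R L →ₗ[R] U R L :=
  (MulOpposite.opLinearEquiv R).symm.toLinearMap ∘ₗ antiHom.toLinearMap

theorem antiLin_apply (a : U R L) : antiLin a = unop (antiHom a) := rfl

theorem antiLin_mul (a b : U R L) : antiLin (a * b) = antiLin b * antiLin a := by
  rw [antiLin_apply, map_mul, unop_mul]
  rfl

theorem antiLin_one : antiLin (1 : U R L) = 1 := by
  rw [antiLin_apply, map_one, unop_one]

theorem antiLin_io (x : L) : antiLin (io x : U R L) = -io x := by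
  rw [antiLin_apply, antiHom_io, unop_op]

/-- `a ⊗ b ↦ S(a) b`. -/
noncomputable def FF : U R L ⊗[R] U R L →ₗ[R] U R L :=
  LinearMap.mul' R (U R L) ∘ₗ antiLin.rTensor (U R L)

/-- `a ⊗ b ↦ a S(b)`. -/
noncomputable def GG : U R L ⊗[R] U R L →ₗ[R] U R L :=
  LinearMap.mul' R (U R L) ∘ₗ antiLin.lTensor (U R L)

theorem FF_tmul (a b : U R L) : FF (a ⊗ₜ[R] b) = antiLin a * b := by
  simp [FF]

theorem GG_tmul (a b : U R L) : GG (a ⊗ₜ[R] b) = a * antiLin b := by
  simp [GG]

theorem FF_mul_tmul (t : U R L ⊗[R] U R L) (a b : U R L) :
    FF (t * (a ⊗ₜ[R] b)) = antiLin a * FF t * b := by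
  induction t using TensorProduct.induction_on with
  | zero => simp
  | tmul x y =>
    rw [Algebra.TensorProduct.tmul_mul_tmul, FF_tmul, FF_tmul, antiLin_mul]
    noncomm_ring
  | add s t hs ht => rw [add_mul, map_add, hs, ht, map_add]; noncomm_ring

theorem GG_tmul_mul (t : U R L ⊗[R] U R L) (a b : U R L) :
    GG ((a ⊗ₜ[R] b) * t) = a * GG t * antiLin b := by
  induction t using TensorProduct.induction_on with
  | zero => simp
  | tmul x y =>
    rw [Algebra.TensorProduct.tmul_mul_tmul, GG_tmul, GG_tmul, antiLin_mul]
    noncomm_ring
  | add s t hs ht => rw [mul_add, map_add, hs, ht, map_add]; noncomm_ring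

theorem FF_mul {t : U R L ⊗[R] U R L} {c : R} (ht : FF t = algebraMap R _ c)
    (u : U R L ⊗[R] U R L) : FF (t * u) = c • FF u := by
  induction u using TensorProduct.induction_on with
  | zero => simp
  | tmul a b =>
    rw [FF_mul_tmul, ht, FF_tmul, ← Algebra.commutes, Algebra.smul_def, mul_assoc]
  | add s u hs hu => rw [mul_add, map_add, hs, hu, map_add, smul_add]

theorem GG_mul {u : U R L ⊗[R] U R L} {c : R} (hu : GG u = algebraMap R _ c)
    (t : U R L ⊗[R] U R L) : GG (t * u) = c • GG t := by
  induction t using TensorProduct.induction_on with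
  | zero => simp
  | tmul a b =>
    rw [GG_tmul_mul, hu, GG_tmul, ← Algebra.commutes, Algebra.smul_def, mul_assoc]
  | add s t hs ht => rw [add_mul, map_add, hs, ht, map_add, smul_add]

theorem FF_comul (a : U R L) : FF (comulHom a) = algebraMap R _ (counitHom a) := by
  let S : Subalgebra R (U R L) :=
    { carrier := {a | FF (comulHom a) = algebraMap R _ (counitHom a)}
      mul_mem' := by
        intro a b ha hb
        change FF (comulHom (a * b)) = _
        rw [map_mul, FF_mul ha, map_mul, map_mul]
        change _ • FF (comulHom b) = _
        have hb' : FF (comulHom b) = algebraMap R _ (counitHom b) := hb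
        rw [hb', Algebra.smul_def]
      add_mem' := by
        intro a b ha hb
        change FF (comulHom (a + b)) = _
        have ha' : FF (comulHom a) = algebraMap R _ (counitHom a) := ha
        have hb' : FF (comulHom b) = algebraMap R _ (counitHom b) := hb
        rw [map_add, map_add, ha', hb', map_add, map_add]
      algebraMap_mem' := by
        intro r
        change FF (comulHom (algebraMap R _ r)) = algebraMap R _ (counitHom (algebraMap R _ r))
        rw [AlgHom.commutes, AlgHom.commutes, Algebra.algebraMap_eq_smul_one,
          Algebra.TensorProduct.one_def, map_smul, FF_tmul, antiLin_one, mul_one,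
          Algebra.algebraMap_eq_smul_one]
        rfl }
  refine mem_of_io S (fun x => ?_) a
  change FF (comulHom (io x)) = _
  rw [comulHom_io, map_add, FF_tmul, FF_tmul, antiLin_one, antiLin_io, counitHom_io, map_zero]
  simp

theorem GG_comul (a : U R L) : GG (comulHom a) = algebraMap R _ (counitHom a) := by
  let S : Subalgebra R (U R L) :=
    { carrier := {a | GG (comulHom a) = algebraMap R _ (counitHom a)}
      mul_mem' := by
        intro a b ha hb
        change GG (comulHom (a * b)) = _
        rw [map_mul, GG_mul hb, map_mul, map_mul]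
        have ha' : GG (comulHom a) = algebraMap R _ (counitHom a) := ha
        rw [ha', Algebra.smul_def, Algebra.commutes]
      add_mem' := by
        intro a b ha hb
        change GG (comulHom (a + b)) = _
        have ha' : GG (comulHom a) = algebraMap R _ (counitHom a) := ha
        have hb' : GG (comulHom b) = algebraMap R _ (counitHom b) := hb
        rw [map_add, map_add, ha', hb', map_add, map_add]
      algebraMap_mem' := by
        intro r
        change GG (comulHom (algebraMap R _ r)) = algebraMap R _ (counitHom (algebraMap R _ r))
        rw [AlgHom.commutes, AlgHom.commutes, Algebra.algebraMap_eq_smul_one,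
          Algebra.TensorProduct.one_def, map_smul, GG_tmul, antiLin_one, mul_one,
          Algebra.algebraMap_eq_smul_one]
        rfl }
  refine mem_of_io S (fun x => ?_) a
  change GG (comulHom (io x)) = _
  rw [comulHom_io, map_add, GG_tmul, GG_tmul, antiLin_one, antiLin_io, counitHom_io, map_zero]
  simp

noncomputable instance instHopf : HopfAlgebra R (U R L) where
  antipode := antiLin
  mul_antipode_rTensor_comul := by
    ext a
    exact FF_comul a
  mul_antipode_lTensor_comul := by
    ext a
    exact GG_comul a

end

end X190.UH
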