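import Mathlib
import Pool.Agent.X190.UH.Hopf

/-!
The enveloping algebra of the Lie algebra of polynomial vector fields on the line: it is
finitely generated, and every submultiplicative seminorm factors through the counit.
-/

open Polynomial

namespace X190.UH

/-- Polynomial vector fields on the line. -/
abbrev W := Derivation ℂ (Polynomial ℂ) (Polynomial ℂ)

/-- The enveloping algebra of `W`. -/
abbrev UW := U ℂ W

/-- The vector field `t ^ k d/dt`. -/
noncomputable def E (k : ℕ) : W := Polynomial.mkDerivation ℂ (X ^ k)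

theorem W_ext {x y : W} (h : x X = y X) : x = y := Polynomial.derivation_ext h

theorem E_X (k : ℕ) : E k X = X ^ k := by
  rw [E, Polynomial.mkDerivation_X]

theorem E_apply (k : ℕ) (f : ℂ[X]) : E k f = derivative f * X ^ k := by
  rw [E, Polynomial.mkDerivation_apply, smul_eq_mul]

theorem lie_E (j k : ℕ) : ⁅E j, E (k + 1)⁆ = ((k + 1 : ℂ) - j) • E (j + k) := by
  apply W_ext
  rw [Derivation.commutator_apply, E_X, E_X, E_apply, E_apply, Derivation.smul_apply, E_X,
    Polynomial.derivative_X_pow, Polynomial.derivative_X_pow, Polynomial.smul_eq_C_mul]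
  rcases j with _ | j
  · simp
  · simp only [Nat.add_sub_cancel, map_sub, map_add, map_natCast, map_one, Nat.cast_add,
      Nat.cast_one]
    ring

theorem lie_E_one (k : ℕ) : ⁅E 1, E k⁆ = ((k : ℂ) - 1) • E k := by
  rcases k with _ | k
  · apply W_ext
    rw [Derivation.commutator_apply, E_X, E_X, E_apply, E_apply, Derivation.smul_apply, E_X]
    simp
  · rw [lie_E]
    congr 1
    · push_cast; ring
    · rw [add_comm]

theorem W_induction {P : W → Prop} (h1 : ∀ x y, P x → P y → P (x + y))
    (h2 : ∀ (c : ℂ) k, P (c • E k)) (x : W) : P x := by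
  have key : ∀ f : ℂ[X], P (Polynomial.mkDerivation ℂ f) := by
    intro f
    induction f using Polynomial.induction_on' with
    | add f g hf hg => rw [map_add]; exact h1 _ _ hf hg
    | monomial n a =>
      have : Polynomial.mkDerivation ℂ (monomial n a) = a • E n := by
        rw [E, ← map_smul, Polynomial.smul_X_eq_monomial]
      rw [this]
      exact h2 a n
  have : x = Polynomial.mkDerivation ℂ (x X) := W_ext (by rw [Polynomial.mkDerivation_X])
  rw [this]
  exact key _

/-- Finite generation. -/
theorem finiteType : Algebra.FiniteType ℂ UW := by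
  classical
  refine ⟨⟨{io (E 0), io (E 2), io (E 3)}, ?_⟩⟩
  set A := Algebra.adjoin ℂ (({io (E 0), io (E 2), io (E 3)} : Finset UW) : Set UW) with hA
  have hmem : ∀ a ∈ ({io (E 0), io (E 2), io (E 3)} : Finset UW), a ∈ A := fun a ha =>
    Algebra.subset_adjoin ha
  have h0 : io (E 0) ∈ A := hmem _ (by simp)
  have h2 : io (E 2) ∈ A := hmem _ (by simp)
  have h3 : io (E 3) ∈ A := hmem _ (by simp)
  have hbr : ∀ x y : W, io x ∈ A → io y ∈ A → (io ⁅x, y⁆ : UW) ∈ A := by
    intro x y hx hy
    rw [io_lie]
    exact A.sub_mem (A.mul_mem hx hy) (A.mul_mem hy hx)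
  have hsc : ∀ (c : ℂ) (x : W), c ≠ 0 → (io (c • x) : UW) ∈ A → (io x : UW) ∈ A := by
    intro c x hc hx
    rw [io_smul] at hx
    have := A.smul_mem hx c⁻¹
    rwa [smul_smul, inv_mul_cancel₀ hc, one_smul] at this
  have h1 : (io (E 1) : UW) ∈ A := by
    apply hsc 2 _ two_ne_zero
    have := hbr _ _ h0 h2
    rw [lie_E 0 1] at this
    convert this using 3
    norm_num
  have hall : ∀ k, (io (E (k + 3)) : UW) ∈ A := by
    intro k
    induction k with
    | zero => exact h3
    | succ k ih =>
      have hc : ((k : ℂ) + 2 + 1 - (2 : ℕ)) ≠ 0 := by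
        have : ((k : ℂ) + 2 + 1 - (2 : ℕ)) = ((k + 1 : ℕ) : ℂ) := by push_cast; ring
        rw [this]
        exact_mod_cast Nat.succ_ne_zero k
      apply hsc _ _ hc
      have := hbr _ _ h2 ih
      have h4 := lie_E 2 (k + 2)
      rw [show k + 2 + 1 = k + 3 from rfl] at h4
      rw [h4] at this
      convert this using 3
      · push_cast; ring
      · congr 1; omega
  have hE : ∀ k, (io (E k) : UW) ∈ A := by
    intro k
    match k with
    | 0 => exact h0
    | 1 => exact h1
    | 2 => exact h2
    | k + 3 => exact hall k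
  rw [eq_top_iff]
  intro a _
  refine mem_of_io A (fun x => ?_) a
  induction x using W_induction with
  | h1 x y hx hy => rw [io_add]; exact A.add_mem hx hy
  | h2 c k => rw [io_smul]; exact A.smul_mem (hE k) c

/-- The representation on polynomials. -/
noncomputable def rho : UW →ₐ[ℂ] Module.End ℂ ℂ[X] :=
  mkHom
    { toFun := fun x : W => (x : ℂ[X] →ₗ[ℂ] ℂ[X])
      map_add' := fun _ _ => rfl
      map_smul' := fun _ _ => rfl } (by
    intro x y
    apply LinearMap.ext
    intro f
    exact Derivation.commutator_apply (D1 := x) (D2 := y) (a := f))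

theorem io_E_ne_zero : (io (E 0) : UW) ≠ 0 := by
  intro h
  have h1 : rho (io (E 0)) X = (E 0) X := by
    rw [rho, mkHom_io]
    rfl
  rw [h, map_zero, E_X] at h1
  simp at h1

section seminorm

variable (p : Seminorm ℂ UW) (hp : ∀ a b, p (a * b) ≤ p a * p b)

include hp

theorem p_comm (a b : UW) : p (a * b - b * a) ≤ 2 * p a * p b := by
  calc p (a * b - b * a) ≤ p (a * b) + p (b * a) := map_sub_le_add p _ _
    _ ≤ p a * p b + p b * p a := add_le_add (hp _ _) (hp _ _)
    _ = 2 * p a * p b := by ring

theorem p_E_large {k : ℕ} (hk : 2 * p (io (E 1)) < (k : ℝ) - 1) : p (io (E k)) = 0 := by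
  have h1 := p_comm p hp (io (E 1)) (io (E k))
  rw [← io_lie, lie_E_one, io_smul, map_smul_eq_mul] at h1
  have h0 : 0 ≤ p (io (E k)) := apply_nonneg p _
  have h2 : (0 : ℝ) ≤ p (io (E 1)) := apply_nonneg p _
  have h3 : ‖(k : ℂ) - 1‖ = (k : ℝ) - 1 := by
    have : (k : ℂ) - 1 = (((k : ℝ) - 1 : ℝ) : ℂ) := by push_cast; ring
    rw [this, Complex.norm_real, Real.norm_eq_abs, abs_of_nonneg (by linarith)]
  rw [h3] at h1
  by_contra h
  have hpos : 0 < p (io (E k)) := lt_of_le_of_ne h0 (Ne.symm h)
  nlinarith

theorem p_E_down {k : ℕ} (hk : p (io (E (k + 1))) = 0) : p (io (E k)) = 0 := by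
  have h1 := p_comm p hp (io (E 0)) (io (E (k + 1)))
  rw [← io_lie, lie_E, io_smul, map_smul_eq_mul, hk, mul_zero, zero_add] at h1
  have h0 : 0 ≤ p (io (E k)) := apply_nonneg p _
  have h3 : ((k : ℂ) + 1 - (0 : ℕ)) ≠ 0 := by
    push_cast
    rw [sub_zero]
    exact_mod_cast Nat.succ_ne_zero k
  have h4 : 0 < ‖(k : ℂ) + 1 - (0 : ℕ)‖ := norm_pos_iff.mpr h3
  by_contra h
  have hpos : 0 < p (io (E k)) := lt_of_le_of_ne h0 (Ne.symm h)
  nlinarith [mul_pos h4 hpos]

theorem p_E (k : ℕ) : p (io (E k)) = 0 := by
  obtain ⟨N, hN⟩ := exists_nat_gt (2 * p (io (E 1)) + 1)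
  have hlarge : ∀ m, N ≤ m → p (io (E m)) = 0 := by
    intro m hm
    apply p_E_large p hp
    have : (N : ℝ) ≤ m := by exact_mod_cast hm
    linarith
  have hdown : ∀ d m, N ≤ m + d → p (io (E m)) = 0 := by
    intro d
    induction d with
    | zero => exact fun m hm => hlarge m hm
    | succ d ih => exact fun m hm => p_E_down p hp (ih (m + 1) (by omega))
  exact hdown N k (by omega)

theorem p_io (x : W) : p (io x) = 0 := by
  induction x using W_induction with
  | h1 x y hx hy =>
    rw [io_add]
    refine le_antisymm ?_ (apply_nonneg p _)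
    calc p (io x + io y) ≤ p (io x) + p (io y) := map_add_le_add p _ _
      _ = 0 := by rw [hx, hy, add_zero]
  | h2 c k => rw [io_smul, map_smul_eq_mul, p_E p hp, mul_zero]

/-- Every submultiplicative seminorm kills the augmentation ideal. -/
theorem p_sub_counit (a : UW) : p (a - algebraMap ℂ UW (counitHom a)) = 0 := by
  let S : Subalgebra ℂ UW :=
    { carrier := {a | p (a - algebraMap ℂ UW (counitHom a)) = 0}
      mul_mem' := by
        intro a b ha hb
        have ha' : p (a - algebraMap ℂ UW (counitHom a)) = 0 := ha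
        have hb' : p (b - algebraMap ℂ UW (counitHom b)) = 0 := hb
        change p (a * b - algebraMap ℂ UW (counitHom (a * b))) = 0
        have e1 : a * b - algebraMap ℂ UW (counitHom (a * b))
            = (a - algebraMap ℂ UW (counitHom a)) * b
              + algebraMap ℂ UW (counitHom a) * (b - algebraMap ℂ UW (counitHom b)) := by
          rw [map_mul, map_mul]
          noncomm_ring
        refine le_antisymm ?_ (apply_nonneg p _)
        rw [e1]
        refine (map_add_le_add p _ _).trans ?_
        have h1 := hp (a - algebraMap ℂ UW (counitHom a)) b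
        have h2 := hp (algebraMap ℂ UW (counitHom a)) (b - algebraMap ℂ UW (counitHom b))
        rw [ha', zero_mul] at h1
        rw [hb', mul_zero] at h2
        linarith
      add_mem' := by
        intro a b ha hb
        have ha' : p (a - algebraMap ℂ UW (counitHom a)) = 0 := ha
        have hb' : p (b - algebraMap ℂ UW (counitHom b)) = 0 := hb
        change p (a + b - algebraMap ℂ UW (counitHom (a + b))) = 0
        have e1 : a + b - algebraMap ℂ UW (counitHom (a + b))
            = (a - algebraMap ℂ UW (counitHom a)) + (b - algebraMap ℂ UW (counitHom b)) := by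
          rw [map_add, map_add]
          abel
        refine le_antisymm ?_ (apply_nonneg p _)
        rw [e1]
        refine (map_add_le_add p _ _).trans ?_
        rw [ha', hb', add_zero]
      algebraMap_mem' := by
        intro r
        change p (algebraMap ℂ UW r - algebraMap ℂ UW (counitHom (algebraMap ℂ UW r))) = 0
        rw [AlgHom.commutes]
        simp }
  refine mem_of_io S (fun x => ?_) a
  change p (io x - algebraMap ℂ UW (counitHom (io x))) = 0
  rw [counitHom_io, map_zero, sub_zero]
  exact p_io p hp x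

end seminorm

end X190.UH
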