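import Mathlib
import Pool.Agent.X190.UH.Witt

/-!
Arens–Michael algebras and envelopes; the envelope of `H ⊗ U(W)`.
-/

open TensorProduct

namespace X190.UH

universe u v w

/-- Arens–Michael algebras: complete Hausdorff, topology given by a family of submultiplicative
seminorms. -/
structure IsArensMichael (B : Type u) [Ring B] [Algebra ℂ B] [UniformSpace B]
    [IsUniformAddGroup B] : Prop where
  complete : CompleteSpace B
  hausdorff : T2Space B
  seminorms : ∃ (I : Type u) (q : SeminormFamily ℂ B I), WithSeminorms q ∧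
    ∀ i a b, q i (a * b) ≤ q i a * q i b

/-- `ι : A → B` is the Arens–Michael envelope of `A`: `B` is the completion of `A` with respect
to all submultiplicative seminorms. -/
structure IsEnvelope {A : Type v} {B : Type u} [Ring A] [Algebra ℂ A] [Ring B] [Algebra ℂ B]
    [UniformSpace B] [IsUniformAddGroup B] (ι : A →ₐ[ℂ] B) : Prop where
  arensMichael : IsArensMichael B
  dense : DenseRange ι
  extend : ∀ p : Seminorm ℂ A, (∀ a b, p (a * b) ≤ p a * p b) →
    ∃ q : Seminorm ℂ B, Continuous q ∧ ∀ a, q (ι a) = p a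

theorem isArensMichael_complex : IsArensMichael ℂ where
  complete := inferInstance
  hausdorff := inferInstance
  seminorms := ⟨Fin 1, fun _ => normSeminorm ℂ ℂ, norm_withSeminorms ℂ ℂ, fun _ a b => by
    simp⟩

/-- The envelope of `ℂ`. -/
theorem isEnvelope_id : IsEnvelope (AlgHom.id ℂ ℂ) where
  arensMichael := isArensMichael_complex
  dense := Function.surjective_id.denseRange
  extend p hp := ⟨p, by
    have : ∀ a : ℂ, p a = ‖a‖ * p 1 := by
      intro a
      rw [← map_smul_eq_mul, smul_eq_mul, mul_one]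
    rw [show (⇑p : ℂ → ℝ) = fun a => ‖a‖ * p 1 from funext this]
    exact continuous_norm.mul_const _, fun _ => rfl⟩

section tensor

variable {H : Type v} [Ring H] [Algebra ℂ H]

/-- `id ⊗ ε : H ⊗ U(W) → H`. -/
noncomputable def proj (H : Type v) [Ring H] [Algebra ℂ H] : H ⊗[ℂ] UW →ₐ[ℂ] H :=
  (Algebra.TensorProduct.rid ℂ ℂ H).toAlgHom.comp
    (Algebra.TensorProduct.map (AlgHom.id ℂ H) (counitHom : UW →ₐ[ℂ] ℂ))

theorem proj_tmul (a : H) (u : UW) : proj H (a ⊗ₜ[ℂ] u) = (counitHom u : ℂ) • a := by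
  simp [proj]

theorem proj_left (a : H) : proj H (a ⊗ₜ[ℂ] (1 : UW)) = a := by
  rw [proj_tmul, map_one, one_smul]

/-- Submultiplicative seminorms on `H ⊗ U(W)` factor through `id ⊗ ε`. -/
theorem p_tensor (p : Seminorm ℂ (H ⊗[ℂ] UW)) (hp : ∀ a b, p (a * b) ≤ p a * p b)
    (t : H ⊗[ℂ] UW) : p (t - proj H t ⊗ₜ[ℂ] (1 : UW)) = 0 := by
  let r : Seminorm ℂ UW := p.comp (Algebra.TensorProduct.includeRight (R := ℂ) (A := H)
    (B := UW)).toLinearMap
  have hr : ∀ a b, r (a * b) ≤ r a * r b := by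
    intro a b
    change p ((1 : H) ⊗ₜ[ℂ] (a * b)) ≤ p ((1 : H) ⊗ₜ[ℂ] a) * p ((1 : H) ⊗ₜ[ℂ] b)
    have := hp ((1 : H) ⊗ₜ[ℂ] a) ((1 : H) ⊗ₜ[ℂ] b)
    rwa [Algebra.TensorProduct.tmul_mul_tmul, one_mul] at this
  induction t using TensorProduct.induction_on with
  | zero => simp
  | tmul a u =>
    have h1 := p_sub_counit r hr u
    have e1 : a ⊗ₜ[ℂ] u - proj H (a ⊗ₜ[ℂ] u) ⊗ₜ[ℂ] (1 : UW)
        = (a ⊗ₜ[ℂ] (1 : UW)) * ((1 : H) ⊗ₜ[ℂ] (u - algebraMap ℂ UW (counitHom u))) := by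
      rw [Algebra.TensorProduct.tmul_mul_tmul, mul_one, one_mul, TensorProduct.tmul_sub,
        proj_tmul, Algebra.algebraMap_eq_smul_one, TensorProduct.tmul_smul,
        TensorProduct.smul_tmul']
    refine le_antisymm ?_ (apply_nonneg p _)
    rw [e1]
    refine (hp _ _).trans ?_
    have h2 : p ((1 : H) ⊗ₜ[ℂ] (u - algebraMap ℂ UW (counitHom u))) = 0 := h1
    rw [h2, mul_zero]
  | add s t hs ht =>
    have e1 : s + t - proj H (s + t) ⊗ₜ[ℂ] (1 : UW)
        = (s - proj H s ⊗ₜ[ℂ] (1 : UW)) + (t - proj H t ⊗ₜ[ℂ] (1 : UW)) := by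
      rw [map_add, TensorProduct.add_tmul]
      abel
    refine le_antisymm ?_ (apply_nonneg p _)
    rw [e1]
    refine (map_add_le_add p _ _).trans ?_
    rw [hs, ht, add_zero]

/-- `H ⊗ U(W)` and `H` have the same Arens–Michael envelope. -/
theorem isEnvelope_tensor {B : Type u} [Ring B] [Algebra ℂ B] [UniformSpace B]
    [IsUniformAddGroup B] {ι : H →ₐ[ℂ] B} (h : IsEnvelope ι) : IsEnvelope (ι.comp (proj H)) where
  arensMichael := h.arensMichael
  dense := by
    have hs : Function.Surjective (proj H) := fun a => ⟨_, proj_left a⟩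
    change Dense (Set.range (ι ∘ proj H))
    rw [hs.range_comp]
    exact h.dense
  extend p hp := by
    let r : Seminorm ℂ H := p.comp (Algebra.TensorProduct.includeLeft (R := ℂ) (S := ℂ) (A := H)
      (B := UW)).toLinearMap
    obtain ⟨q, hq1, hq2⟩ := h.extend r (by
      intro a b
      change p ((a * b) ⊗ₜ[ℂ] (1 : UW)) ≤ p (a ⊗ₜ[ℂ] (1 : UW)) * p (b ⊗ₜ[ℂ] (1 : UW))
      have := hp (a ⊗ₜ[ℂ] (1 : UW)) (b ⊗ₜ[ℂ] (1 : UW))
      rwa [Algebra.TensorProduct.tmul_mul_tmul, one_mul] at this)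
    refine ⟨q, hq1, fun t => ?_⟩
    change q (ι (proj H t)) = p t
    rw [hq2]
    change p (proj H t ⊗ₜ[ℂ] (1 : UW)) = p t
    have h1 := p_tensor p hp t
    apply le_antisymm
    · calc p (proj H t ⊗ₜ[ℂ] (1 : UW)) = p (t - (t - proj H t ⊗ₜ[ℂ] (1 : UW))) := by
            rw [sub_sub_cancel]
        _ ≤ p t + p (t - proj H t ⊗ₜ[ℂ] (1 : UW)) := map_sub_le_add p _ _
        _ = p t := by rw [h1, add_zero]
    · calc p t = p (proj H t ⊗ₜ[ℂ] (1 : UW) + (t - proj H t ⊗ₜ[ℂ] (1 : UW))) := by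
            rw [add_sub_cancel]
        _ ≤ p (proj H t ⊗ₜ[ℂ] (1 : UW)) + p (t - proj H t ⊗ₜ[ℂ] (1 : UW)) :=
            map_add_le_add p _ _
        _ = p (proj H t ⊗ₜ[ℂ] (1 : UW)) := by rw [h1, add_zero]

end tensor

end X190.UH
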