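import Mathlib
import Pool.Agent.X190.UH.Env

/-!
Non-isomorphic affine Hopf algebras with the same Arens–Michael envelope.
-/

open TensorProduct

namespace X190.UH

universe u v

/-- The counit is the Arens–Michael envelope of `U(W)`. -/
theorem isEnvelope_counit : IsEnvelope (counitHom : UW →ₐ[ℂ] ℂ) where
  arensMichael := isArensMichael_complex
  dense := by
    have hs : Function.Surjective (counitHom : UW →ₐ[ℂ] ℂ) := fun c => ⟨algebraMap ℂ UW c, by
      rw [AlgHom.commutes]; rfl⟩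
    exact hs.denseRange
  extend p hp := by
    refine ⟨(p 1).toNNReal • normSeminorm ℂ ℂ, ?_, fun a => ?_⟩
    · have : ⇑((p 1).toNNReal • normSeminorm ℂ ℂ) = fun z : ℂ => (p 1) * ‖z‖ := by
        funext z
        rw [_root_.smul_apply]
        simp [NNReal.smul_def, Real.coe_toNNReal _ (apply_nonneg p 1)]
      rw [this]
      exact continuous_const.mul continuous_norm
    · have h1 := p_sub_counit p hp a
      have h2 : p (algebraMap ℂ UW (counitHom a)) = p 1 * ‖(counitHom a : ℂ)‖ := by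
        rw [Algebra.algebraMap_eq_smul_one, map_smul_eq_mul, mul_comm]
      have h3 : ((p 1).toNNReal • normSeminorm ℂ ℂ) (counitHom a) = p 1 * ‖(counitHom a : ℂ)‖ := by
        rw [_root_.smul_apply]
        simp [NNReal.smul_def, Real.coe_toNNReal _ (apply_nonneg p 1)]
      rw [h3, ← h2]
      apply le_antisymm
      · calc p (algebraMap ℂ UW (counitHom a))
            = p (a - (a - algebraMap ℂ UW (counitHom a))) := by rw [sub_sub_cancel]
          _ ≤ p a + p (a - algebraMap ℂ UW (counitHom a)) := map_sub_le_add p _ _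
          _ = p a := by rw [h1, add_zero]
      · calc p a = p (algebraMap ℂ UW (counitHom a) + (a - algebraMap ℂ UW (counitHom a))) := by
              rw [add_sub_cancel]
          _ ≤ p (algebraMap ℂ UW (counitHom a)) + p (a - algebraMap ℂ UW (counitHom a)) :=
              map_add_le_add p _ _
          _ = p (algebraMap ℂ UW (counitHom a)) := by rw [h1, add_zero]

/-- `U(W)` is not isomorphic to `ℂ`, even as an algebra. -/
theorem not_iso_complex : ¬ Nonempty (ℂ ≃ₐ[ℂ] UW) := by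
  rintro ⟨e⟩
  obtain ⟨c, hc⟩ := e.surjective (io (E 0))
  have h1 : e c = algebraMap ℂ UW c := by
    have := e.commutes c
    exact this
  have h2 : (counitHom (algebraMap ℂ UW c) : ℂ) = c := by rw [AlgHom.commutes]; rfl
  rw [← h1, hc, counitHom_io] at h2
  rw [← h2, map_zero] at hc
  exact io_E_ne_zero hc.symm

section tensor

variable {H : Type v} [Ring H] [HopfAlgebra ℂ H]

/-- `id ⊗ ε` as a morphism of bialgebras. -/
noncomputable def piHom (H : Type v) [Ring H] [HopfAlgebra ℂ H] : H ⊗[ℂ] UW →ₐc[ℂ] H :=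
  ((Bialgebra.TensorProduct.rid ℂ ℂ H : H ⊗[ℂ] ℂ ≃ₐc[ℂ] H) : H ⊗[ℂ] ℂ →ₐc[ℂ] H).comp
    (Bialgebra.TensorProduct.map (BialgHom.id ℂ H) (Bialgebra.counitBialgHom ℂ UW))

theorem piHom_eq : (piHom H : H ⊗[ℂ] UW →ₐ[ℂ] H) = proj H := by
  apply Algebra.TensorProduct.ext'
  intro a u
  rw [proj_tmul]
  rfl

theorem one_tmul_ne_zero : ((1 : H) ⊗ₜ[ℂ] (io (E 0) : UW)) ≠ 0 := by
  intro h
  let f : H ⊗[ℂ] UW →ₗ[ℂ] UW :=
    (TensorProduct.lid ℂ UW).toLinearMap ∘ₗ
      (Coalgebra.counit (R := ℂ) (A := H)).rTensor UW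
  have h1 : f ((1 : H) ⊗ₜ[ℂ] (io (E 0) : UW)) = io (E 0) := by
    simp [f]
  rw [h, map_zero] at h1
  exact io_E_ne_zero h1.symm

theorem not_iso_tensor {B : Type u} [Ring B] [Algebra ℂ B] [UniformSpace B]
    [IsUniformAddGroup B] {ι : H →ₐ[ℂ] B} (h : IsEnvelope ι) (hinj : Function.Injective ι) :
    ¬ Nonempty (H ⊗[ℂ] UW ≃ₐ[ℂ] H) := by
  rintro ⟨e⟩
  obtain ⟨I, q, hq1, hq2⟩ := h.arensMichael.seminorms
  haveI := h.arensMichael.hausdorff
  have h0 : ι (e ((1 : H) ⊗ₜ[ℂ] (io (E 0) : UW))) = 0 := by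
    by_contra hne
    obtain ⟨i, hi⟩ : ∃ i, q i (ι (e ((1 : H) ⊗ₜ[ℂ] (io (E 0) : UW)))) ≠ 0 :=
      hq1.separating_of_T1 _ hne
    apply hi
    let p : Seminorm ℂ (H ⊗[ℂ] UW) := (q i).comp (ι.comp e.toAlgHom).toLinearMap
    have hp : ∀ a b, p (a * b) ≤ p a * p b := by
      intro a b
      change q i (ι (e (a * b))) ≤ q i (ι (e a)) * q i (ι (e b))
      rw [map_mul, map_mul]
      exact hq2 i _ _
    have h1 := p_tensor p hp ((1 : H) ⊗ₜ[ℂ] (io (E 0) : UW))
    rw [proj_tmul, counitHom_io, zero_smul, TensorProduct.zero_tmul, sub_zero] at h1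
    exact h1
  have h2 : e ((1 : H) ⊗ₜ[ℂ] (io (E 0) : UW)) = 0 := hinj (by rw [h0, map_zero])
  have h3 : ((1 : H) ⊗ₜ[ℂ] (io (E 0) : UW)) = 0 := e.injective (by rw [h2, map_zero])
  exact one_tmul_ne_zero h3

theorem finiteType_tensor [hf : Algebra.FiniteType ℂ H] :
    Algebra.FiniteType ℂ (H ⊗[ℂ] UW) := by
  classical
  obtain ⟨s, hs⟩ := hf.1
  obtain ⟨t, ht⟩ := finiteType.1
  let iL : H →ₐ[ℂ] H ⊗[ℂ] UW := Algebra.TensorProduct.includeLeft
  let iR : UW →ₐ[ℂ] H ⊗[ℂ] UW := Algebra.TensorProduct.includeRight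
  refine ⟨⟨s.image iL ∪ t.image iR, ?_⟩⟩
  set A := Algebra.adjoin ℂ ((s.image iL ∪ t.image iR : Finset (H ⊗[ℂ] UW)) : Set (H ⊗[ℂ] UW))
    with hA
  have hL : ∀ a : H, iL a ∈ A := by
    intro a
    have h1 : a ∈ Algebra.adjoin ℂ (s : Set H) := by rw [hs]; trivial
    have h2 : Algebra.adjoin ℂ (s : Set H) ≤ A.comap iL := by
      apply Algebra.adjoin_le
      intro x hx
      apply Algebra.subset_adjoin
      exact Finset.mem_coe.mpr (Finset.mem_union_left _ (Finset.mem_image_of_mem _ hx))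
    exact h2 h1
  have hR : ∀ a : UW, iR a ∈ A := by
    intro a
    have h1 : a ∈ Algebra.adjoin ℂ (t : Set UW) := by rw [ht]; trivial
    have h2 : Algebra.adjoin ℂ (t : Set UW) ≤ A.comap iR := by
      apply Algebra.adjoin_le
      intro x hx
      apply Algebra.subset_adjoin
      exact Finset.mem_coe.mpr (Finset.mem_union_right _ (Finset.mem_image_of_mem _ hx))
    exact h2 h1
  rw [eq_top_iff]
  intro z _
  induction z using TensorProduct.induction_on with
  | zero => exact A.zero_mem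
  | tmul a u =>
    have : a ⊗ₜ[ℂ] u = iL a * iR u := by
      change a ⊗ₜ[ℂ] u = (a ⊗ₜ[ℂ] (1 : UW)) * ((1 : H) ⊗ₜ[ℂ] u)
      rw [Algebra.TensorProduct.tmul_mul_tmul, mul_one, one_mul]
    rw [this]
    exact A.mul_mem (hL a) (hR u)
  | add x y hx hy => exact A.add_mem (hx trivial) (hy trivial)

end tensor

end X190.UH
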